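import Pool.Agent.W647.KN13

/-!
# The Chern characters of the higher K-groups of group rings vanish above the diagonal

Linearization maps `π_n(A(BG))` to `K_n(ℤ[G])`, hence to the homology `H_n(GL(ℤ[G]); ℤ)`. For
torsion-free groups the Farrell–Jones conjecture implies that the component at `1` of the Chern
character (Dennis, Connes, Karoubi, Loday) `K_n(ℤ[G]) → H_{n+2k}(G; ℚ)` is zero for all `k ≥ 1`,
because `K_i(ℤ) = 0` for `i < 0`. We prove this, with an explicit bound for the torsion, on all
integral `n`-cycles of the groups `GL_d(R[G])`, for all groups `G` of type `FP_∞` which have no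
element of order `q` for some prime `q`.
-/

set_option autoImplicit false

namespace Pool.Agent.Results.MP_63c928_gt.HigherChernVanishing

open Pool.Agent.W647.HX1 Pool.Agent.W647.HZ1 Pool.Agent.W647.KN

universe u

/-- Let `n = m + 1 ≥ 1` and `k ≥ 1`, let `G` be a group which has no element of order `q`, for some
prime `q`, and assume that `G` is of type `FP_∞`, or that `H_{n+2k}(G; ℤ)` is finitely generated.
Then there is an integer `t ≥ 1`, whose prime factors are orders of elements of `G` (so `t = 1` if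
`G` is torsion-free), such that for all rings `R` with a trace `T₀ : R → ℤ` (for example `R = ℤ`),
all integral `n`-cycles `z` of the groups `GL_d(R[G])`, all abelian groups `A`, and all alternating
cocycles `c` of degree `n + 2 k` of `G` with values in `A`, the number `τ` of `z` and `c` satisfies
`t (2 k + 2) ((2 k)! / k!) (n + 2 k + 2)! τ = 0`; so `τ = 0` if `A` is torsion-free. -/
theorem result (G : Type) [Group G] (m k : ℕ) (hk : 1 ≤ k)
    (h : TypeFPInf G ∨ Module.Finite ℤ (groupHomology (Rep.trivial ℤ G ℤ) (m + 1 + 2 * k)))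
    (q : ℕ) (hq : q.Prime) (hqG : ∀ y : G, orderOf y ≠ q) :
    ∃ t : ℕ, t ≠ 0 ∧ (∀ p : ℕ, p.Prime → p ∣ t → ∃ y : G, orderOf y = p) ∧
      ∀ (R : Type) [Ring R] (T₀ : R →+ ℤ), (∀ x y, T₀ (x * y) = T₀ (y * x)) →
      ∀ (d : Type) [Fintype d] [DecidableEq d] (z : (Fin (m + 1) → GLG d R G) →₀ ℤ), IsCyc z →
      ∀ (A : Type u) [AddCommGroup A] (c : (Fin (m + 1 + 2 * k + 1) → G) → A), IsAltCocycle c →
        (t * ((2 * k + 2) * (2 * k).descFactorial k * (m + 1 + 2 * k + 2).factorial)) •
          cycleNumber T₀ k c z = 0 ∧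
        ((∀ (n : ℕ) (a : A), n ≠ 0 → n • a = 0 → a = 0) → cycleNumber T₀ k c z = 0) := by
  have hfin : Module.Finite ℤ (groupHomology (Rep.trivial ℤ G ℤ) (m + 1 + 2 * k)) := by
    rcases h with h | h
    · exact TypeFPInf_finite h _
    · exact h
  obtain ⟨t, ht, ht2, ht3⟩ := higher_zero (show k ≠ 0 by omega) hfin q hq hqG
  refine ⟨t, ht, ht2, fun R _ T₀ hT d _ _ z hz A _ c hc => ?_⟩
  have h1 : (t * ((2 * k + 2) * (2 * k).descFactorial k * (m + 1 + 2 * k + 2).factorial)) •
      cycleNumber T₀ k c z = 0 := ht3 R T₀ hT d z hz A c hc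
  refine ⟨h1, fun hA => hA _ _ ?_ h1⟩
  have h2 : (2 * k).descFactorial k ≠ 0 := by
    rw [Ne, Nat.descFactorial_eq_zero_iff_lt]
    omega
  exact mul_ne_zero ht (mul_ne_zero (mul_ne_zero (by omega) h2) (Nat.factorial_ne_zero _))

end Pool.Agent.Results.MP_63c928_gt.HigherChernVanishing
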